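import Pool.Agent.H30.VX.Targets

/-!
# MP_d32443_co, large `k`, row GRD: distinct representatives
-/

set_option autoImplicit false

open Finset Pool.Agent.H48.CE Pool.Agent.H30.VR Pool.Agent.H30.VX

namespace Pool.Agent.H4.VX

theorem pf_GRD : T_GRD := by
  intro V ι _ S Z h
  classical
  have hall : ∀ s : Finset ι, s.card ≤ (s.biUnion fun i => S i \ Z).card := by
    intro s
    rcases s.eq_empty_or_nonempty with rfl | ⟨i, hi⟩
    · simp
    · have h1 : (S i \ Z) ⊆ s.biUnion fun i => S i \ Z := fun x hx => mem_biUnion.2 ⟨i, hi, hx⟩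
      have h2 := card_le_card h1
      have h3 := h i
      have h4 : (S i).card - Z.card ≤ (S i \ Z).card := le_card_sdiff Z (S i)
      have h5 : s.card ≤ Fintype.card ι := card_le_univ s
      omega
  obtain ⟨f, hf, hf'⟩ := (all_card_le_biUnion_card_iff_exists_injective _).1 hall
  exact ⟨f, hf, fun i => mem_sdiff.1 (hf' i)⟩

end Pool.Agent.H4.VX
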