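import Pool.Agent.H30.VX.Targets

/-!
# MP_d32443_co, large `k`, row NCP: paths of all lengths through a near-complete set
-/

set_option autoImplicit false

open Finset Pool.Agent.H48.CE Pool.Agent.H30.VR Pool.Agent.H30.VX

namespace Pool.Agent.H4.VX

open scoped Classical in
/-- the non-neighbours in a near-complete set -/
theorem nn_card {V : Type} {G : SimpleGraph V} {W : Finset V} {μ : ℕ} {v : V}
    (h : W.card ≤ (nb G W v).card + μ) : (W.filter (fun w => ¬ G.Adj v w)).card ≤ μ := by
  have h1 := card_filter_add_card_filter_not (s := W) (fun w => G.Adj v w)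
  unfold nb at h
  omega

/-- two consecutive good elements -/
theorem two_good {V : Type} (P : V → Prop) [DecidablePred P] : ∀ (n : ℕ) (F : List V),
    F.length = n → 2 * F.countP (fun v => ¬ P v) + 2 ≤ F.length →
    ∃ l1 f f' l2, F = l1 ++ f :: f' :: l2 ∧ P f ∧ P f' := by
  intro n
  induction n using Nat.strong_induction_on with
  | _ n ih =>
    intro F hn h
    match F, hn, h with
    | [], _, h => simp at h
    | [a], _, h => simp at h
    | a :: b :: t, hn, h =>
      by_cases ha : P a
      · by_cases hb : P b
        · exact ⟨[], a, b, t, rfl, ha, hb⟩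
        · have h1 : (a :: b :: t).countP (fun v => ¬ P v) = t.countP (fun v => ¬ P v) + 1 := by
            rw [List.countP_cons_of_neg (by simpa using ha),
              List.countP_cons_of_pos (by simpa using hb)]
          rw [h1] at h
          simp only [List.length_cons] at h hn
          obtain ⟨l1, f, f', l2, h2, h3, h4⟩ := ih t.length (by omega) t rfl (by omega)
          exact ⟨a :: b :: l1, f, f', l2, by rw [h2]; rfl, h3, h4⟩
      · have h1 : (a :: b :: t).countP (fun v => ¬ P v) = (b :: t).countP (fun v => ¬ P v) + 1 := by
          rw [List.countP_cons_of_pos (by simpa using ha)]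
        rw [h1] at h
        rw [List.length_cons] at h hn
        obtain ⟨l1, f, f', l2, h2, h3, h4⟩ := ih (b :: t).length (by omega) (b :: t) rfl (by omega)
        exact ⟨a :: l1, f, f', l2, by rw [h2]; rfl, h3, h4⟩

/-- a path which starts in `W` and ends in `y` -/
theorem greedy_end {V : Type} (G : SimpleGraph V) (W : Finset V) (μ : ℕ) (y : V)
    (hNC : NC G μ W) (hy : y ∉ W) (hyd : W.card ≤ (nb G W y).card + μ) :
    ∀ n : ℕ, μ + n ≤ W.card → ∃ F : List V, F.length = n ∧ (F ++ [y]).Nodup ∧
      (F ++ [y]).IsChain G.Adj ∧ ∀ v ∈ F, v ∈ W := by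
  classical
  intro n
  induction n with
  | zero =>
    intro _
    exact ⟨[], rfl, by simp, by simp, by simp⟩
  | succ n ih =>
    intro hn
    obtain ⟨F, hF1, hF2, hF3, hF4⟩ := ih (by omega)
    obtain ⟨a, m, ham⟩ : ∃ a m, F ++ [y] = a :: m := by
      cases F with
      | nil => exact ⟨y, [], rfl⟩
      | cons b t => exact ⟨b, t ++ [y], rfl⟩
    have had : W.card ≤ (nb G W a).card + μ := by
      have h1 : a ∈ F ++ [y] := by rw [ham]; simp
      rw [List.mem_append, List.mem_singleton] at h1
      rcases h1 with h1 | h1
      · exact hNC a (hF4 a h1)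
      · rw [h1]
        exact hyd
    have h2 := nn_card had
    have h3 : F.toFinset.card ≤ n := by
      rw [← hF1]
      exact List.toFinset_card_le F
    obtain ⟨w, hw, hw'⟩ : ∃ w ∈ W, w ∉ W.filter (fun w => ¬ G.Adj a w) ∪ F.toFinset := by
      apply exists_mem_notMem_of_card_lt_card
      have := card_union_le (W.filter (fun w => ¬ G.Adj a w)) F.toFinset
      omega
    rw [mem_union, mem_filter, List.mem_toFinset] at hw'
    push Not at hw'
    refine ⟨w :: F, by simp [hF1], ?_, ?_, ?_⟩
    · rw [List.cons_append, List.nodup_cons]
      refine ⟨?_, hF2⟩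
      rw [List.mem_append, List.mem_singleton]
      rintro (h | h)
      · exact hw'.2 h
      · rw [h] at hw
        exact hy hw
    · rw [List.cons_append, ham, List.isChain_cons_cons]
      rw [ham] at hF3
      exact ⟨(hw'.1 hw).symm, hF3⟩
    · intro v hv
      rw [List.mem_cons] at hv
      rcases hv with rfl | hv
      · exact hw
      · exact hF4 v hv

theorem pf_NCP : T_NCP := by
  classical
  intro V G W μ x y hNC hx hy hxy hxd hyd hW g hg1
  induction g with
  | zero => omega
  | succ g ih =>
    intro hgW
    by_cases hg : g ≤ 2 * μ + 1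
    · -- greedy
      obtain ⟨F, hF1, hF2, hF3, hF4⟩ := greedy_end G W μ y hNC hy hyd g (by omega)
      obtain ⟨a, m, ham⟩ : ∃ a m, F ++ [y] = a :: m := by
        cases F with
        | nil => exact ⟨y, [], rfl⟩
        | cons b t => exact ⟨b, t ++ [y], rfl⟩
      have had : W.card ≤ (nb G W a).card + μ := by
        have h1 : a ∈ F ++ [y] := by rw [ham]; simp
        rw [List.mem_append, List.mem_singleton] at h1
        rcases h1 with h1 | h1
        · exact hNC a (hF4 a h1)
        · rw [h1]
          exact hyd
      have h2 := nn_card had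
      have h2' := nn_card hxd
      have h3 : F.toFinset.card ≤ g := by
        rw [← hF1]
        exact List.toFinset_card_le F
      obtain ⟨w, hw, hw'⟩ : ∃ w ∈ W, w ∉ (W.filter (fun w => ¬ G.Adj a w) ∪
          W.filter (fun w => ¬ G.Adj x w)) ∪ F.toFinset := by
        apply exists_mem_notMem_of_card_lt_card
        have h4 := card_union_le (W.filter (fun w => ¬ G.Adj a w) ∪
          W.filter (fun w => ¬ G.Adj x w)) F.toFinset
        have h5 := card_union_le (W.filter (fun w => ¬ G.Adj a w))
          (W.filter (fun w => ¬ G.Adj x w))
        omega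
      rw [mem_union, mem_union, mem_filter, mem_filter, List.mem_toFinset] at hw'
      push Not at hw'
      refine ⟨w :: F, by simp [hF1], ⟨?_, ?_⟩, ?_⟩
      · rw [List.cons_append, List.nodup_cons, List.nodup_cons]
        refine ⟨?_, ?_, hF2⟩
        · rw [List.mem_cons, List.mem_append, List.mem_singleton]
          rintro (h | h | h)
          · rw [h] at hx
            exact hx hw
          · exact hx (hF4 x h)
          · exact hxy h
        · rw [List.mem_append, List.mem_singleton]
          rintro (h | h)
          · exact hw'.2 h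
          · rw [h] at hw
            exact hy hw
      · rw [List.cons_append, ham, List.isChain_cons_cons, List.isChain_cons_cons]
        rw [ham] at hF3
        exact ⟨hw'.1.2 hw, (hw'.1.1 hw).symm, hF3⟩
      · intro v hv
        rw [List.mem_cons] at hv
        rcases hv with rfl | hv
        · exact hw
        · exact hF4 v hv
    · -- insertion
      obtain ⟨F, hF1, ⟨hF2, hF3⟩, hF4⟩ := ih (by omega) (by omega)
      have hFn : F.Nodup := by
        rw [List.nodup_cons, List.nodup_append] at hF2
        exact hF2.2.1
      have hFc : F.toFinset.card = g := by rw [List.toFinset_card_of_nodup hFn, hF1]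
      obtain ⟨w, hw, hw'⟩ : ∃ w ∈ W, w ∉ F.toFinset := by
        apply exists_mem_notMem_of_card_lt_card
        omega
      rw [List.mem_toFinset] at hw'
      have h1 : F.countP (fun v => ¬ G.Adj w v) ≤ μ := by
        rw [List.countP_eq_length_filter]
        have h2 : (F.filter (fun v => ¬ G.Adj w v)).Nodup := hFn.filter _
        rw [← List.toFinset_card_of_nodup h2]
        refine le_trans (card_le_card ?_) (nn_card (hNC w hw))
        intro v hv
        rw [List.mem_toFinset, List.mem_filter] at hv
        rw [mem_filter]
        exact ⟨hF4 v hv.1, by simpa using hv.2⟩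
      obtain ⟨l1, f, f', l2, h2, h3, h4⟩ := two_good (fun v => G.Adj w v) g F hF1
        (by rw [hF1]; omega)
      refine ⟨l1 ++ f :: w :: f' :: l2, ?_, ⟨?_, ?_⟩, ?_⟩
      · rw [h2] at hF1
        simp at hF1 ⊢
        omega
      · have hp : (x :: ((l1 ++ f :: w :: f' :: l2) ++ [y])).Perm
            (w :: (x :: (F ++ [y]))) := by
          rw [h2]
          have e1 : x :: ((l1 ++ f :: w :: f' :: l2) ++ [y]) =
              (x :: l1 ++ [f]) ++ w :: (f' :: l2 ++ [y]) := by simp
          have e2 : w :: (x :: ((l1 ++ f :: f' :: l2) ++ [y])) =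
              w :: ((x :: l1 ++ [f]) ++ (f' :: l2 ++ [y])) := by simp
          rw [e1, e2]
          exact List.perm_middle
        rw [hp.nodup_iff, List.nodup_cons]
        refine ⟨?_, hF2⟩
        rw [List.mem_cons, List.mem_append, List.mem_singleton]
        rintro (h | h | h)
        · rw [← h] at hx
          exact hx hw
        · exact hw' h
        · rw [← h] at hy
          exact hy hw
      · have e1 : x :: ((l1 ++ f :: w :: f' :: l2) ++ [y]) =
              (x :: l1) ++ f :: (w :: f' :: (l2 ++ [y])) := by simp
        have e2 : x :: (F ++ [y]) = (x :: l1) ++ f :: (f' :: (l2 ++ [y])) := by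
          rw [h2]
          simp
        rw [e2, List.isChain_split, List.isChain_cons_cons] at hF3
        rw [e1, List.isChain_split, List.isChain_cons_cons, List.isChain_cons_cons]
        exact ⟨hF3.1, h3.symm, h4, hF3.2.2⟩
      · intro v hv
        rw [List.mem_append, List.mem_cons, List.mem_cons] at hv
        rw [h2] at hF4
        rcases hv with hv | rfl | rfl | hv
        · exact hF4 v (by simp [hv])
        · exact hF4 v (by simp)
        · exact hw
        · exact hF4 v (by rw [List.mem_append, List.mem_cons]; exact Or.inr (Or.inr hv))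

end Pool.Agent.H4.VX
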